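import Mathlib

set_option autoImplicit false

namespace Pool.Agent.MP_510a26_co

/-- `L` is a latin square of order `n`: every symbol occurs exactly once in each row and exactly
once in each column. -/
def IsLatin {n : ℕ} (L : Fin n → Fin n → Fin n) : Prop :=
  (∀ r s : Fin n, ∃! c : Fin n, L r c = s) ∧ (∀ c s : Fin n, ∃! r : Fin n, L r c = s)

/-- `L` and `M` are orthogonal: the ordered pairs `(L i j, M i j)` are pairwise distinct. -/
def Orthogonal {n : ℕ} (L M : Fin n → Fin n → Fin n) : Prop :=
  ∀ i j i' j' : Fin n, (L i j, M i j) = (L i' j', M i' j') → (i, j) = (i', j')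

/-- `S` is the set of the four cells of an intercalate (a 2 x 2 latin subsquare) of `L`. -/
def IsIntercalate {n : ℕ} (L : Fin n → Fin n → Fin n) (S : Set (Fin n × Fin n)) : Prop :=
  ∃ r r' c c' : Fin n, r ≠ r' ∧ c ≠ c' ∧ L r c = L r' c' ∧ L r c' = L r' c ∧
    S = {(r, c), (r, c'), (r', c), (r', c')}

/-- `L` is `h`-homogeneous: each cell belongs to exactly `h` intercalates. -/
def IsHomogeneous {n : ℕ} (h : ℕ) (L : Fin n → Fin n → Fin n) : Prop :=
  ∀ cell : Fin n × Fin n, {S : Set (Fin n × Fin n) | IsIntercalate L S ∧ cell ∈ S}.ncard = h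

end Pool.Agent.MP_510a26_co
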