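import Pool.Agent.MP_510a26_co.Defs

set_option autoImplicit false

namespace Pool.Agent.MP_510a26_co

/-- opposite corners (including the trivial one) -/
def Opp {α : Type} (L : α → α → α) (r c : α) : Type :=
  {p : α × α // L r c = L p.1 p.2 ∧ L r p.2 = L p.1 c}

structure Pair (α : Type) (m : ℕ) (L M : α → α → α) : Prop where
  rowL : ∀ r, Function.Injective (fun c => L r c)
  colL : ∀ c, Function.Injective (fun r => L r c)
  rowM : ∀ r, Function.Injective (fun c => M r c)
  colM : ∀ c, Function.Injective (fun r => M r c)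
  orth : ∀ i j i' j', L i j = L i' j' → M i j = M i' j' → i = i' ∧ j = j'
  cardL : ∀ r c, Nat.card (Opp L r c) = m
  cardM : ∀ r c, Nat.card (Opp M r c) = m

def Good (m : ℕ) : Prop :=
  ∃ (α : Type) (_ : Finite α) (_ : Nonempty α) (L M : α → α → α), Pair α m L M

def prodSq {α β : Type} (L : α → α → α) (L' : β → β → β) : α × β → α × β → α × β :=
  fun x y => (L x.1 y.1, L' x.2 y.2)

def oppProd {α β : Type} (L : α → α → α) (L' : β → β → β) (r c : α × β) :
    Opp (prodSq L L') r c ≃ Opp L r.1 c.1 × Opp L' r.2 c.2 where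
  toFun p := (⟨(p.1.1.1, p.1.2.1), congrArg Prod.fst p.2.1, congrArg Prod.fst p.2.2⟩,
    ⟨(p.1.1.2, p.1.2.2), congrArg Prod.snd p.2.1, congrArg Prod.snd p.2.2⟩)
  invFun q := ⟨((q.1.1.1, q.2.1.1), (q.1.1.2, q.2.1.2)),
    Prod.ext q.1.2.1 q.2.2.1, Prod.ext q.1.2.2 q.2.2.2⟩
  left_inv _ := rfl
  right_inv _ := rfl

theorem Good.mul {m m' : ℕ} (h : Good m) (h' : Good m') : Good (m * m') := by
  obtain ⟨α, _, _, L, M, hp⟩ := h
  obtain ⟨β, _, _, L', M', hq⟩ := h'
  refine ⟨α × β, inferInstance, inferInstance, prodSq L L', prodSq M M', ?_, ?_, ?_, ?_, ?_, ?_, ?_⟩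
  · intro r c c' h
    exact Prod.ext (hp.rowL _ (congrArg Prod.fst h)) (hq.rowL _ (congrArg Prod.snd h))
  · intro r c c' h
    exact Prod.ext (hp.colL _ (congrArg Prod.fst h)) (hq.colL _ (congrArg Prod.snd h))
  · intro r c c' h
    exact Prod.ext (hp.rowM _ (congrArg Prod.fst h)) (hq.rowM _ (congrArg Prod.snd h))
  · intro r c c' h
    exact Prod.ext (hp.colM _ (congrArg Prod.fst h)) (hq.colM _ (congrArg Prod.snd h))
  · intro i j i' j' h1 h2
    have a := hp.orth _ _ _ _ (congrArg Prod.fst h1) (congrArg Prod.fst h2)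
    have b := hq.orth _ _ _ _ (congrArg Prod.snd h1) (congrArg Prod.snd h2)
    exact ⟨Prod.ext a.1 b.1, Prod.ext a.2 b.2⟩
  · intro r c
    rw [Nat.card_congr (oppProd L L' r c), Nat.card_prod, hp.cardL, hq.cardL]
  · intro r c
    rw [Nat.card_congr (oppProd M M' r c), Nat.card_prod, hp.cardM, hq.cardM]

theorem good_one : Good 1 := by
  refine ⟨Unit, inferInstance, inferInstance, fun _ _ => (), fun _ _ => (), ?_, ?_, ?_, ?_, ?_, ?_, ?_⟩
  · intro r c c' _; rfl
  · intro r c c' _; rfl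
  · intro r c c' _; rfl
  · intro r c c' _; rfl
  · intro i j i' j' _ _; exact ⟨rfl, rfl⟩
  · intro r c
    exact Nat.card_eq_one_iff_unique.2 ⟨⟨fun a b => Subtype.ext (Subsingleton.elim _ _)⟩, ⟨⟨((), ()), rfl, rfl⟩⟩⟩
  · intro r c
    exact Nat.card_eq_one_iff_unique.2 ⟨⟨fun a b => Subtype.ext (Subsingleton.elim _ _)⟩, ⟨⟨((), ()), rfl, rfl⟩⟩⟩

/-- the Klein four group -/
abbrev V : Type := ZMod 2 × ZMod 2

section twisted
variable {R : Type} [CommRing R]

def sq (φ : V → V) (s g : V → R) : V × R → V × R → V × R :=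
  fun x y => (x.1 + φ y.1, s y.1 * x.2 + y.2 + g x.1)

def Sol (s s' g g' a b : R) : Type :=
  {u : R × R // s * a + b + g = s' * u.1 + u.2 + g' ∧ s' * a + u.2 + g = s * u.1 + b + g'}

theorem V_add_self (x : V) : x + x = 0 := by revert x; decide

def oppSq (φ : V → V) (hφ : ∀ x y, φ (x + y) = φ x + φ y) (s g : V → R) (x y : V × R) :
    Opp (sq φ s g) x y ≃
      Σ d : V, Sol (s y.1) (s (y.1 + d)) (g x.1) (g (x.1 + φ d)) x.2 y.2 where
  toFun p := ⟨y.1 + p.1.2.1, ⟨(p.1.1.2, p.1.2.2), by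
    have h1 : x.1 + φ y.1 = p.1.1.1 + φ p.1.2.1 := congrArg Prod.fst p.2.1
    have h2 : s y.1 * x.2 + y.2 + g x.1 = s p.1.2.1 * p.1.1.2 + p.1.2.2 + g p.1.1.1 :=
      congrArg Prod.snd p.2.1
    have h3 : s p.1.2.1 * x.2 + p.1.2.2 + g x.1 = s y.1 * p.1.1.2 + y.2 + g p.1.1.1 :=
      congrArg Prod.snd p.2.2
    have e1 : y.1 + (y.1 + p.1.2.1) = p.1.2.1 := by rw [← add_assoc, V_add_self, zero_add]
    have e2 : x.1 + φ (y.1 + p.1.2.1) = p.1.1.1 := by
      rw [hφ, ← add_assoc, h1, add_assoc, V_add_self, add_zero]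
    rw [e1, e2]
    exact ⟨h2, h3⟩⟩⟩
  invFun q := ⟨((x.1 + φ q.1, q.2.1.1), (y.1 + q.1, q.2.1.2)), by
    refine ⟨Prod.ext ?_ q.2.2.1, Prod.ext ?_ q.2.2.2⟩
    · show x.1 + φ y.1 = x.1 + φ q.1 + φ (y.1 + q.1)
      rw [hφ, add_comm (φ y.1), add_assoc, ← add_assoc (φ q.1), V_add_self, zero_add]
    · show x.1 + φ (y.1 + q.1) = x.1 + φ q.1 + φ y.1
      rw [hφ]; abel⟩
  left_inv p := by
    have h1 : x.1 + φ y.1 = p.1.1.1 + φ p.1.2.1 := congrArg Prod.fst p.2.1
    have e1 : y.1 + (y.1 + p.1.2.1) = p.1.2.1 := by rw [← add_assoc, V_add_self, zero_add]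
    have e2 : x.1 + φ (y.1 + p.1.2.1) = p.1.1.1 := by
      rw [hφ, ← add_assoc, h1, add_assoc, V_add_self, add_zero]
    apply Subtype.ext
    exact Prod.ext (Prod.ext e2 rfl) (Prod.ext e1 rfl)
  right_inv q := by
    obtain ⟨d, u, hu⟩ := q
    have e1 : y.1 + (y.1 + d) = d := by rw [← add_assoc, V_add_self, zero_add]
    refine Sigma.ext e1 ?_
    refine (Subtype.heq_iff_coe_eq ?_).2 rfl
    intro u
    simp only [e1]

theorem card_sol_unit (s s' g g' a b : R) (h : IsUnit (s + s')) :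
    Nat.card (Sol s s' g g' a b) = 1 := by
  obtain ⟨w, hw⟩ := h.exists_left_inv
  refine Nat.card_eq_one_iff_unique.2 ⟨⟨?_⟩, ⟨⟨(a + w * (2 * g - 2 * g'),
    s * a + b + g - g' - s' * (a + w * (2 * g - 2 * g'))), ?_, ?_⟩⟩⟩
  · rintro ⟨⟨u, v⟩, h1, h2⟩ ⟨⟨u', v'⟩, h1', h2'⟩
    simp only at h1 h2 h1' h2'
    have e : u = u' := by
      have : (s + s') * u = (s + s') * u' := by linear_combination -h1 - h2 + h1' + h2'
      exact h.mul_left_cancel this
    subst e
    have e' : v = v' := by linear_combination h1' - h1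
    subst e'
    rfl
  · simp only; ring
  · simp only; linear_combination (-(2 * g - 2 * g')) * hw

theorem card_sol_all (s g a b : R) :
    Nat.card (Sol s (-s) g g a b) = Nat.card R := by
  refine Nat.card_congr ⟨fun u => u.1.1, fun t => ⟨(t, s * a + b + s * t), ?_, ?_⟩, ?_, ?_⟩
  · simp only; ring
  · simp only; ring
  · rintro ⟨⟨u, v⟩, h1, h2⟩
    apply Subtype.ext
    refine Prod.ext rfl ?_
    simp only at h1 h2 ⊢
    linear_combination h1
  · intro t; rfl

theorem card_sol_none (s g g' a b : R) (h : 2 * g ≠ 2 * g') :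
    Nat.card (Sol s (-s) g g' a b) = 0 := by
  have : IsEmpty (Sol s (-s) g g' a b) := ⟨by
    rintro ⟨⟨u, v⟩, h1, h2⟩
    simp only at h1 h2
    exact h (by linear_combination h1 + h2)⟩
  exact Nat.card_of_isEmpty

instance [Finite R] (s s' g g' a b : R) : Finite (Sol s s' g g' a b) := by
  unfold Sol; infer_instance

theorem card_opp_sq [Finite R] (φ : V → V) (hφ : ∀ x y, φ (x + y) = φ x + φ y) (s g : V → R)
    (x y : V × R) :
    Nat.card (Opp (sq φ s g) x y) =
      Nat.card (Sol (s y.1) (s (y.1 + (0, 0))) (g x.1) (g (x.1 + φ (0, 0))) x.2 y.2) +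
      Nat.card (Sol (s y.1) (s (y.1 + (0, 1))) (g x.1) (g (x.1 + φ (0, 1))) x.2 y.2) +
      Nat.card (Sol (s y.1) (s (y.1 + (1, 0))) (g x.1) (g (x.1 + φ (1, 0))) x.2 y.2) +
      Nat.card (Sol (s y.1) (s (y.1 + (1, 1))) (g x.1) (g (x.1 + φ (1, 1))) x.2 y.2) := by
  rw [Nat.card_congr (oppSq φ hφ s g x y), Nat.card_sigma, Fintype.sum_prod_type]
  have : (Finset.univ : Finset (ZMod 2)) = {0, 1} := by decide
  simp only [this]
  rw [Finset.sum_pair (by decide), Finset.sum_pair (by decide), Finset.sum_pair (by decide)]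
  ring

def om (c : V) : V := (c.2, c.1 + c.2)

theorem sq_row (φ : V → V) (hφ : Function.Injective φ) (s g : V → R) (r : V × R) :
    Function.Injective (fun c => sq φ s g r c) := by
  rintro ⟨c, b⟩ ⟨c', b'⟩ h
  have h1 : r.1 + φ c = r.1 + φ c' := congrArg Prod.fst h
  have h2 : s c * r.2 + b + g r.1 = s c' * r.2 + b' + g r.1 := congrArg Prod.snd h
  have e : c = c' := hφ (add_left_cancel h1)
  subst e
  have e' : b = b' := by linear_combination h2
  rw [e']

theorem sq_col (φ : V → V) (s g : V → R) (hs : ∀ c, IsUnit (s c)) (c : V × R) :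
    Function.Injective (fun r => sq φ s g r c) := by
  rintro ⟨r, a⟩ ⟨r', a'⟩ h
  have h1 : r + φ c.1 = r' + φ c.1 := congrArg Prod.fst h
  have h2 : s c.1 * a + c.2 + g r = s c.1 * a' + c.2 + g r' := congrArg Prod.snd h
  have e : r = r' := add_right_cancel h1
  subst e
  have e' : a = a' := (hs c.1).mul_left_cancel (by linear_combination h2)
  rw [e']

theorem good_of_sq [Finite R] (m : ℕ) (s g g' : V → R) (hs : ∀ c, IsUnit (s c + s c))
    (hL : ∀ x y, Nat.card (Opp (sq id s g) x y) = m)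
    (hM : ∀ x y, Nat.card (Opp (sq om (fun c => -s c) g') x y) = m) : Good m := by
  have hs' : ∀ c, IsUnit (s c) := fun c => by
    have := hs c
    rw [← two_mul] at this
    exact isUnit_of_mul_isUnit_right this
  refine ⟨V × R, inferInstance, ⟨(0, 0)⟩, sq id s g, sq om (fun c => -s c) g',
    sq_row _ Function.injective_id _ _, sq_col _ _ _ hs', sq_row _ (by decide) _ _,
    sq_col _ _ _ (fun c => (hs' c).neg), ?_, hL, hM⟩
  rintro ⟨r, a⟩ ⟨c, b⟩ ⟨r', a'⟩ ⟨c', b'⟩ h1 h2
  have e1 : r + c = r' + c' := congrArg Prod.fst h1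
  have e2 : r + om c = r' + om c' := congrArg Prod.fst h2
  have e3 : s c * a + b + g r = s c' * a' + b' + g r' := congrArg Prod.snd h1
  have e4 : -s c * a + b + g' r = -s c' * a' + b' + g' r' := congrArg Prod.snd h2
  have key : ∀ r c r' c' : V, r + c = r' + c' → r + om c = r' + om c' → r = r' ∧ c = c' := by
    decide
  obtain ⟨rfl, rfl⟩ := key r c r' c' e1 e2
  have e' : a = a' := (hs c).mul_left_cancel (by linear_combination e3 - e4)
  subst e'
  have e'' : b = b' := by linear_combination e3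
  subst e''
  exact ⟨rfl, rfl⟩

def chi (c : V) : R := if c.1 = 0 then 1 else -1
def ind (t : ZMod 2) : R := if t = 0 then 0 else 1

theorem chi_unit (h2 : IsUnit (2 : R)) (c : V) : IsUnit ((chi c : R) + chi c) := by
  unfold chi
  split_ifs
  · rw [one_add_one_eq_two]; exact h2
  · rw [← neg_add, one_add_one_eq_two]; exact h2.neg

theorem chi_add0 (c : V) (t : ZMod 2) : (chi (c + (0, t)) : R) = chi c := by
  simp [chi]

theorem chi_add1 (c : V) (t : ZMod 2) : (chi (c + (1, t)) : R) = -chi c := by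
  have : ∀ u : ZMod 2, u + 1 = 0 ↔ ¬ u = 0 := by decide
  by_cases h : c.1 = 0 <;> simp [chi, this, h]

theorem ind_ne [Nontrivial R] (h2 : IsUnit (2 : R)) (t : ZMod 2) :
    2 * (ind t : R) ≠ 2 * ind (t + 1) := by
  intro h
  have h' := h2.mul_left_cancel h
  have : ∀ u : ZMod 2, u + 1 = 0 ↔ ¬ u = 0 := by decide
  by_cases ht : t = 0 <;> simp [ind, this, ht] at h'

theorem om_add (x y : V) : om (x + y) = om x + om y := by revert x y; decide

theorem good_card_add_two [Finite R] [Nontrivial R] (h2 : IsUnit (2 : R)) :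
    Good (Nat.card R + 2) := by
  refine good_of_sq (R := R) _ chi (fun r => ind r.2) (fun r => ind r.1) (chi_unit h2) ?_ ?_
  · intro x y
    rw [card_opp_sq id (fun _ _ => rfl)]
    simp only [chi_add0, chi_add1, id, Prod.snd_add, add_zero]
    rw [card_sol_unit _ _ _ _ _ _ (chi_unit h2 _), card_sol_unit _ _ _ _ _ _ (chi_unit h2 _),
      card_sol_all, card_sol_none _ _ _ _ _ (ind_ne h2 _)]
    ring
  · intro x y
    have hu : ∀ c : V, IsUnit ((-chi c : R) + -chi c) := fun c => by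
      rw [← neg_add]; exact (chi_unit h2 c).neg
    rw [card_opp_sq om om_add]
    simp only [chi_add0, chi_add1, om, Prod.fst_add, add_zero]
    rw [card_sol_unit _ _ _ _ _ _ (hu _), card_sol_unit _ _ _ _ _ _ (hu _),
      card_sol_all, card_sol_none _ _ _ _ _ (ind_ne h2 _)]
    ring

theorem good_two : Good 2 := by
  have h2 : IsUnit (2 : ZMod 3) := by decide
  refine good_of_sq (R := ZMod 3) _ chi (fun r => ind r.1) (fun r => ind (r.1 + r.2))
    (chi_unit h2) ?_ ?_
  · intro x y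
    rw [card_opp_sq id (fun _ _ => rfl)]
    simp only [chi_add0, chi_add1, id, Prod.fst_add, add_zero]
    rw [card_sol_unit _ _ _ _ _ _ (chi_unit h2 _),
      card_sol_none _ _ _ _ _ (ind_ne h2 _)]
  · intro x y
    have hu : ∀ c : V, IsUnit ((-chi c : ZMod 3) + -chi c) := fun c => by
      rw [← neg_add]; exact (chi_unit h2 c).neg
    have a1 : ∀ u v : ZMod 2, u + 0 + (v + (1 + 0)) = u + v + 1 := by decide
    have a2 : ∀ u v : ZMod 2, u + 1 + (v + (1 + 1)) = u + v + 1 := by decide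
    rw [card_opp_sq om om_add]
    simp only [chi_add0, chi_add1, om, Prod.fst_add, Prod.snd_add, a1, a2]
    rw [card_sol_unit _ _ _ _ _ _ (hu _), card_sol_unit _ _ _ _ _ _ (hu _),
      card_sol_none _ _ _ _ _ (ind_ne h2 _)]

def psi (c : V) : ZMod 5 := chi c * (1 + ind c.2)

theorem good_three : Good 3 := by
  have : Fact (1 < 5) := ⟨by norm_num⟩
  have h2 : IsUnit (2 : ZMod 5) := by decide
  have u0 : ∀ c : V, IsUnit (psi c + psi c) := by decide
  have u1 : ∀ c : V, IsUnit (psi c + psi (c + (0, 0))) := by decide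
  have u2 : ∀ c : V, IsUnit (psi c + psi (c + (0, 1))) := by decide
  have u3 : ∀ c : V, IsUnit (psi c + psi (c + (1, 1))) := by decide
  have v1 : ∀ c : V, IsUnit (-psi c + -psi (c + (0, 0))) := by decide
  have v2 : ∀ c : V, IsUnit (-psi c + -psi (c + (0, 1))) := by decide
  have v3 : ∀ c : V, IsUnit (-psi c + -psi (c + (1, 1))) := by decide
  have w : ∀ c : V, psi (c + (1, 0)) = -psi c := by decide
  refine good_of_sq (R := ZMod 5) _ psi (fun r => ind r.1) (fun r => ind r.2) u0 ?_ ?_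
  · intro x y
    rw [card_opp_sq id (fun _ _ => rfl), card_sol_unit _ _ _ _ _ _ (u1 _),
      card_sol_unit _ _ _ _ _ _ (u2 _), card_sol_unit _ _ _ _ _ _ (u3 _), w]
    simp only [id, Prod.fst_add]
    rw [card_sol_none _ _ _ _ _ (ind_ne h2 _)]
  · intro x y
    rw [card_opp_sq om om_add, card_sol_unit _ _ _ _ _ _ (v1 _),
      card_sol_unit _ _ _ _ _ _ (v2 _), card_sol_unit _ _ _ _ _ _ (v3 _), w]
    simp only [om, Prod.snd_add, add_zero]
    rw [card_sol_none _ _ _ _ _ (ind_ne h2 _)]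

end twisted

theorem good_all (m : ℕ) (hm : 1 ≤ m) : Good m := by
  induction m using Nat.strong_induction_on with
  | _ m ih =>
    rcases Nat.even_or_odd' m with ⟨k, rfl | rfl⟩
    · exact good_two.mul (ih k (by omega) (by omega))
    · rcases k with _ | _ | k
      · exact good_one
      · exact good_three
      · have : Fact (1 < 2 * k + 3) := ⟨by omega⟩
        have h2 : IsUnit (2 : ZMod (2 * k + 3)) := by
          have : ((2 : ℕ) : ZMod (2 * k + 3)) = 2 := by norm_cast
          rw [← this, ZMod.isUnit_iff_coprime]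
          exact Nat.coprime_two_left.2 ⟨k + 1, by ring⟩
        have := good_card_add_two (R := ZMod (2 * k + 3)) h2
        rw [Nat.card_zmod] at this
        have e : 2 * (k + 1 + 1) + 1 = 2 * k + 3 + 2 := by ring
        rw [e]; exact this

/-- counting intercalates through a cell by their opposite corner -/
theorem homogeneous_of_card {n h : ℕ} (L : Fin n → Fin n → Fin n)
    (hrow : ∀ r, Function.Injective (fun c => L r c))
    (hcol : ∀ c, Function.Injective (fun r => L r c))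
    (hc : ∀ r c, Nat.card (Opp L r c) = h + 1) : IsHomogeneous h L := by
  rintro ⟨r, c⟩
  let T : Set (Fin n × Fin n) := {p | L r c = L p.1 p.2 ∧ L r p.2 = L p.1 c}
  have hT : T.ncard = h + 1 := hc r c
  have hmem : (r, c) ∈ T := ⟨rfl, rfl⟩
  have hT' : (T \ {(r, c)}).ncard = h := by
    rw [Set.ncard_sdiff_singleton_of_mem hmem, hT]; rfl
  have hne : ∀ p ∈ T \ {(r, c)}, p.1 ≠ r ∧ p.2 ≠ c := by
    rintro ⟨r', c'⟩ ⟨⟨h1, h2⟩, h3⟩
    simp only at h1 h2
    constructor
    · rintro rfl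
      exact h3 (by rw [show c = c' from hrow _ h1]; rfl)
    · rintro rfl
      exact h3 (by rw [show r = r' from hcol _ h1]; rfl)
  rw [← hT']
  symm
  refine Set.ncard_congr (fun p _ => ({(r, c), (r, p.2), (p.1, c), (p.1, p.2)} : Set _)) ?_ ?_ ?_
  · intro p hp
    obtain ⟨a, b⟩ := hne p hp
    exact ⟨⟨r, p.1, c, p.2, a.symm, b.symm, hp.1.1, hp.1.2, rfl⟩, by simp⟩
  · intro p q hp hq h
    obtain ⟨a, b⟩ := hne p hp
    have : (p.1, p.2) ∈ ({(r, c), (r, q.2), (q.1, c), (q.1, q.2)} : Set (Fin n × Fin n)) := by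
      rw [← h]; simp
    simp only [Set.mem_insert_iff, Set.mem_singleton_iff, Prod.mk.injEq] at this
    rcases this with h | h | h | h
    · exact absurd h.1 a
    · exact absurd h.1 a
    · exact absurd h.2 b
    · exact Prod.ext h.1 h.2
  · rintro S ⟨⟨r1, r2, c1, c2, hr, hcc, h1, h2, rfl⟩, hS⟩
    simp only [Set.mem_insert_iff, Set.mem_singleton_iff, Prod.mk.injEq] at hS
    rcases hS with ⟨rfl, rfl⟩ | ⟨rfl, rfl⟩ | ⟨rfl, rfl⟩ | ⟨rfl, rfl⟩
    · exact ⟨(r2, c2), ⟨⟨h1, h2⟩, by simp [hr.symm]⟩, rfl⟩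
    · refine ⟨(r2, c1), ⟨⟨h2, h1⟩, by simp [hr.symm]⟩, ?_⟩
      ext x; simp only [Set.mem_insert_iff, Set.mem_singleton_iff]; tauto
    · refine ⟨(r1, c2), ⟨⟨h2.symm, h1.symm⟩, by simp [hr]⟩, ?_⟩
      ext x; simp only [Set.mem_insert_iff, Set.mem_singleton_iff]; tauto
    · refine ⟨(r1, c1), ⟨⟨h1.symm, h2.symm⟩, by simp [hr]⟩, ?_⟩
      ext x; simp only [Set.mem_insert_iff, Set.mem_singleton_iff]; tauto

theorem latin_of_inj {n : ℕ} (L : Fin n → Fin n → Fin n)
    (hrow : ∀ r, Function.Injective (fun c => L r c))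
    (hcol : ∀ c, Function.Injective (fun r => L r c)) : IsLatin L :=
  ⟨fun r s => ((Finite.injective_iff_bijective.1 (hrow r)).existsUnique s),
   fun c s => ((Finite.injective_iff_bijective.1 (hcol c)).existsUnique s)⟩

def transfer {α β : Type} (e : α ≃ β) (L : α → α → α) : β → β → β :=
  fun x y => e (L (e.symm x) (e.symm y))

def oppTransfer {α β : Type} (e : α ≃ β) (L : α → α → α) (r c : β) :
    Opp (transfer e L) r c ≃ Opp L (e.symm r) (e.symm c) where
  toFun p := ⟨(e.symm p.1.1, e.symm p.1.2), e.injective p.2.1, e.injective p.2.2⟩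
  invFun q := ⟨(e q.1.1, e q.1.2), by
    simp only [transfer, Equiv.symm_apply_apply]
    exact ⟨congrArg e q.2.1, congrArg e q.2.2⟩⟩
  left_inv p := by apply Subtype.ext; simp
  right_inv q := by apply Subtype.ext; simp

theorem Pair.transfer {α β : Type} {m : ℕ} {L M : α → α → α} (h : Pair α m L M) (e : α ≃ β) :
    Pair β m (transfer e L) (transfer e M) where
  rowL _ _ _ hh := e.symm.injective (h.rowL _ (e.injective hh))
  colL _ _ _ hh := e.symm.injective (h.colL _ (e.injective hh))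
  rowM _ _ _ hh := e.symm.injective (h.rowM _ (e.injective hh))
  colM _ _ _ hh := e.symm.injective (h.colM _ (e.injective hh))
  orth _ _ _ _ h1 h2 :=
    have := h.orth _ _ _ _ (e.injective h1) (e.injective h2)
    ⟨e.symm.injective this.1, e.symm.injective this.2⟩
  cardL r c := by rw [Nat.card_congr (oppTransfer e L r c), h.cardL]
  cardM r c := by rw [Nat.card_congr (oppTransfer e M r c), h.cardM]

theorem main (h : ℕ) : ∃ n : ℕ, 1 ≤ n ∧ ∃ L M : Fin n → Fin n → Fin n,
    IsLatin L ∧ IsLatin M ∧ Orthogonal L M ∧ IsHomogeneous h L ∧ IsHomogeneous h M := by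
  obtain ⟨α, _, _, L, M, hp⟩ := good_all (h + 1) (by omega)
  have hq := hp.transfer (Finite.equivFin α)
  refine ⟨Nat.card α, Nat.card_pos, _, _, latin_of_inj _ hq.rowL hq.colL,
    latin_of_inj _ hq.rowM hq.colM, ?_, homogeneous_of_card _ hq.rowL hq.colL hq.cardL,
    homogeneous_of_card _ hq.rowM hq.colM hq.cardM⟩
  intro i j i' j' hh
  have := hq.orth i j i' j' (congrArg Prod.fst hh) (congrArg Prod.snd hh)
  exact Prod.ext this.1 this.2

end Pool.Agent.MP_510a26_co
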